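import Pool.Agent.H37.DP.RC

/-!
MP_6f57c3_an, Donaldson's scalar-curvature perturbation of the geodesic equation: Q1 holds for
every elliptic curve `M = ℂ/(ℤa + ℤb)` with a Kähler form `ω` and a potential `φ₀` that are
invariant under the circle group `ℝa/ℤa` of translations.
-/

set_option autoImplicit false

namespace Pool.Agent.Results.MP_6f57c3_an.CircleInvariant

open Set
open scoped ContDiff

/-- A smooth real function on `M = ℂ/(ℤa + ℤb)` (given by its lift to `ℂ`) that is invariant under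
the circle group `ℝa/ℤa` of translations. -/
structure InvFun (a b : ℂ) (f : ℂ → ℝ) : Prop where
  smooth : ContDiff ℝ ∞ f
  periodic : ∀ z, f (z + b) = f z
  invariant : ∀ (s : ℝ) (z : ℂ), f (z + s • a) = f z

/-- Let `ω = ρ dx ∧ dy`.  The density of `ω_φ = ω + i∂∂̄φ` with respect to `dx ∧ dy`:
`ω_φ = (ρ + ½ Δφ) dx ∧ dy`.  `φ` is a Kähler potential iff it is positive. -/
noncomputable def dens (ρ φ : ℂ → ℝ) (z : ℂ) : ℝ := ρ z + 1 / 2 * Laplacian.laplacian φ z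

/-- The scalar curvature of the Riemannian metric `dens ρ φ • (dx² + dy²)` of `ω_φ`
(twice its Gauss curvature). -/
noncomputable def scal (ρ φ : ℂ → ℝ) (z : ℂ) : ℝ :=
  - (Laplacian.laplacian (fun ζ => Real.log (dens ρ φ ζ)) z) / dens ρ φ z

/-- The squared norm `|∇h|²` of the gradient of `h` with respect to the metric of `ω_φ`. -/
noncomputable def gradSq (ρ φ h : ℂ → ℝ) (z : ℂ) : ℝ := ‖gradient h z‖ ^ 2 / dens ρ φ z

/-- `φ` is a solution, smooth on `M × [0,1]`, of the boundary value problem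
`φ'' - ½ |∇φ'|²_{ω_φ} = - lam R_{ω_φ}`, `φ(0) = 0`, `φ(1) = φ₀`, every `φ(t)` a Kähler potential, on
`M = ℂ/(ℤa + ℤb)` with `ω = ρ dx ∧ dy`.  Time derivatives at `t = 0, 1` are one-sided. -/
structure IsSolution (a b : ℂ) (ρ : ℂ → ℝ) (lam : ℝ) (φ₀ : ℂ → ℝ) (φ : ℝ → ℂ → ℝ) : Prop where
  smooth : ContDiffOn ℝ ∞ (fun p : ℂ × ℝ => φ p.2 p.1) (univ ×ˢ Icc 0 1)
  periodic : ∀ t ∈ Icc (0 : ℝ) 1, ∀ z, φ t (z + a) = φ t z ∧ φ t (z + b) = φ t z
  kaehler : ∀ t ∈ Icc (0 : ℝ) 1, ∀ z, 0 < dens ρ (φ t) z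
  initial : ∀ z, φ 0 z = 0
  final : ∀ z, φ 1 z = φ₀ z
  equation : ∀ t ∈ Icc (0 : ℝ) 1, ∀ z,
    derivWithin (fun s => derivWithin (fun r => φ r z) (Icc 0 1) s) (Icc 0 1) t
      - 1 / 2 * gradSq ρ (φ t) (fun ζ => derivWithin (fun r => φ r ζ) (Icc 0 1) t) z
      = - lam * scal ρ (φ t) z

/-- Let `a, b ∈ ℂ` be linearly independent over `ℝ`, `M = ℂ/(ℤa + ℤb)`, let `ω = ρ dx ∧ dy` be a
smooth Kähler form on `M` and `φ₀` a smooth Kähler potential, both invariant under the circle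
`ℝa/ℤa` of translations, and let `lam > 0`.  Then Donaldson's boundary value problem has a solution
`φ ∈ C^∞(M × [0,1])`, and it can be chosen invariant under the same circle. -/
theorem result {a b : ℂ} (hab : LinearIndependent ℝ ![a, b]) (ρ : ℂ → ℝ)
    (hρ : InvFun a b ρ) (hpos : ∀ z, 0 < ρ z) {lam : ℝ} (hlam : 0 < lam) (φ₀ : ℂ → ℝ)
    (h₀ : InvFun a b φ₀) (hk : ∀ z, 0 < dens ρ φ₀ z) :
    ∃ φ : ℝ → ℂ → ℝ, IsSolution a b ρ lam φ₀ φ ∧ ∀ t ∈ Icc (0 : ℝ) 1, InvFun a b (φ t) := by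
  obtain ⟨φ, h, hi⟩ := Pool.Agent.H37.DP.Geo.main hab ρ ⟨hρ.smooth, hρ.periodic, hρ.invariant⟩
    hpos hlam φ₀ ⟨h₀.smooth, h₀.periodic, h₀.invariant⟩ hk
  exact ⟨φ, ⟨h.smooth, h.periodic, h.kaehler, h.initial, h.final, h.equation⟩,
    fun t ht => ⟨(hi t ht).smooth, (hi t ht).periodic, (hi t ht).invariant⟩⟩

end Pool.Agent.Results.MP_6f57c3_an.CircleInvariant
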